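import Pool.Agent.helper99.PLR.Spec

/-! Project plr (MP_d9e35a_co), row ASA -/

set_option autoImplicit false

open scoped Classical

namespace Pool.Agent.PLR

open Finset
open Pool.Agent.helper65.HC (V IsEig IsTop lam)
open Pool.Agent.helper9.HQ (Fam Dn E N Le Eig lk)
open Pool.Agent.helper9.HX (Ef)
open Pool.Agent.helper9.HLR (cel Lc)

noncomputable section

private theorem ASA_num (K R c₁ C r b t P hh lamK g : ℝ) (hK : 1 ≤ K) (hR : 0 ≤ R) (hc : 0 < c₁)
    (hC : C = R * (K + 1) + 4 * K ^ 2 / c₁ + 4 * K * (R + K) / c₁ + 1) (hr1 : 1 ≤ r) (hb : 0 < b)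
    (ht : 0 < t) (htb : t ≤ (K + 1) * b) (hP : P = hh + R / r) (hlam : 0 ≤ lamK)
    (hg : g = c₁ * r * (t / b)) :
    (4 * K ≤ g → P + lamK + 4 * K ^ 2 / g ≤ hh + lamK + C * b / (r * t)) ∧
      (g < 4 * K → P + K ≤ hh + lamK + C * b / (r * t)) := by
  have hr0 : 0 < r := by linarith
  have hRr : R / r ≤ R := div_le_self hR hr1
  refine ⟨?_, ?_⟩
  · intro h4
    have hg0 : 0 < g := by linarith
    have h1 : 4 * K ^ 2 / g = 4 * K ^ 2 / c₁ * b / (r * t) := by
      rw [hg]
      field_simp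
    have h2 : R / r ≤ R * (K + 1) * b / (r * t) := by
      rw [div_le_div_iff₀ hr0 (by positivity)]
      have h3 : R * (K + 1) * b * r = R * ((K + 1) * b) * r := by ring
      have h4 : R * (r * t) = R * t * r := by ring
      rw [h3, h4]
      exact mul_le_mul_of_nonneg_right (mul_le_mul_of_nonneg_left htb hR) hr0.le
    have h3 : C * b / (r * t) = R * (K + 1) * b / (r * t) + 4 * K ^ 2 / c₁ * b / (r * t) +
        (4 * K * (R + K) / c₁ * b / (r * t) + b / (r * t)) := by
      rw [hC]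
      ring
    have h5 : 0 ≤ 4 * K * (R + K) / c₁ * b / (r * t) + b / (r * t) := by positivity
    linarith
  · intro h4
    have h1 : c₁ * (r * t) < 4 * K * b := by
      have e : g = c₁ * (r * t) / b := by rw [hg]; ring
      rw [e, div_lt_iff₀ hb] at h4
      exact h4
    have h2 : R + K ≤ C * b / (r * t) := by
      have h3 : 4 * K * (R + K) / c₁ ≤ C := by
        rw [hC]
        have : 0 ≤ 4 * K ^ 2 / c₁ := by positivity
        have : 0 ≤ R * (K + 1) := by positivity
        linarith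
      rw [le_div_iff₀ (by positivity)]
      calc (R + K) * (r * t) = (R + K) / c₁ * (c₁ * (r * t)) := by field_simp
        _ ≤ (R + K) / c₁ * (4 * K * b) := mul_le_mul_of_nonneg_left h1.le (by positivity)
        _ = 4 * K * (R + K) / c₁ * b := by ring
        _ ≤ C * b := mul_le_mul_of_nonneg_right h3 hb.le
    linarith

theorem ASA (hCBA : CBA_stmt) (hCLE : Pool.Agent.helper9.HLR.CLE_stmt)
    (hSPL : Pool.Agent.helper9.HLR.SPL_stmt) (hQFM : Pool.Agent.helper9.HLR.QFM_stmt) :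
    ASA_stmt := by
  intro k K hk hK
  obtain ⟨R, c₁, d₀, hR, hc, h⟩ := hCBA k K hk hK
  have hKr : (1 : ℝ) ≤ K := by exact_mod_cast hK
  refine ⟨R * ((K : ℝ) + 1) + 4 * (K : ℝ) ^ 2 / c₁ + 4 * K * (R + K) / c₁ + 1,
    max d₀ 1, by positivity, ?_⟩
  intro d hd U hU hUc
  obtain ⟨S, B, hS, hB, hBS, hall, hout⟩ := h d ((le_max_left _ _).trans hd) U hU hUc
  have hd1 : 1 ≤ d := (le_max_right _ _).trans hd
  have hd1' : (1 : ℝ) ≤ d := by exact_mod_cast hd1
  have hr1 : 1 ≤ √(d : ℝ) := Real.one_le_sqrt.2 hd1'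
  have hb0 : 0 < d.choose k := by
    by_contra hb
    have : d.choose k = 0 := by omega
    rw [this] at hUc
    omega
  have hb : (0 : ℝ) < (d.choose k : ℝ) := by exact_mod_cast hb0
  have hUc' : (U.card : ℝ) < (K + 1) * (d.choose k : ℝ) := by exact_mod_cast hUc
  intro f
  set b : ℝ := (d.choose k : ℝ) with hbdef
  set t : ℝ := (K + 1) * b - U.card with ht
  have ht0 : 0 < t := by linarith
  have htd : t ≤ (K + 1) * b := by
    have : (0 : ℝ) ≤ U.card := Nat.cast_nonneg _
    linarith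
  obtain ⟨hN, hE⟩ := hSPL d U S f hU
  set P : ℝ := hz (k + 1) * √d + R / √d with hP
  set g : ℝ := c₁ * √d * (t / b) with hg
  have hg0 : 0 ≤ g := by positivity
  set n : Finset (Fin d) → ℝ := fun w => √(N (cel S w U) f) with hn
  have hn2 : ∀ w, n w ^ 2 = N (cel S w U) f := by
    intro w
    refine Real.sq_sqrt ?_
    unfold N
    exact Finset.sum_nonneg fun _ _ => sq_nonneg _
  set ell : Finset (Fin d) → ℝ := fun w => if w ∈ B then P else P - g with hell
  have hellP : ∀ w, w ⊆ S → ell w ≤ P := by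
    intro w _
    show (if w ∈ B then P else P - g) ≤ P
    split_ifs
    · exact le_refl _
    · linarith
  obtain ⟨hQ1, hQ2, hlamK⟩ := hQFM d K S n ell P hK hS (fun w => Real.sqrt_nonneg _) hellP
  obtain ⟨hA, hBb⟩ := ASA_num (K : ℝ) R c₁ (R * ((K : ℝ) + 1) + 4 * (K : ℝ) ^ 2 / c₁ +
    4 * K * (R + K) / c₁ + 1) (√d) b t P (hz (k + 1) * √d) (lam K K) g hKr hR hc rfl hr1 hb
    ht0 htd rfl hlamK rfl
  have hcells : ∑ w ∈ S.powerset, Ef (cel S w U) f ≤ ∑ w ∈ S.powerset, ell w * n w ^ 2 := by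
    refine Finset.sum_le_sum fun w hw => ?_
    rw [mem_powerset] at hw
    rw [hn2]
    by_cases hwB : w ∈ B
    · have e1 : ell w = P := if_pos hwB
      rw [e1]
      exact hCLE d U S w _ f hU hw (hall w hw)
    · have e1 : ell w = P - g := if_neg hwB
      rw [e1]
      exact hCLE d U S w _ f hU hw (hout w hw hwB)
  have hNN : ∑ w ∈ S.powerset, n w ^ 2 = N U f := by
    rw [hN]
    exact Finset.sum_congr rfl fun w _ => hn2 w
  have hN0 : 0 ≤ N U f := by
    unfold N
    exact Finset.sum_nonneg fun _ _ => sq_nonneg _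
  have hE2 : E U f ≤ ∑ w ∈ S.powerset, ell w * n w ^ 2 +
      2 * ∑ w ∈ S.powerset, ∑ j ∈ w, n w * n (w.erase j) := by
    refine hE.trans ?_
    linarith
  rw [hNN] at hQ2
  rcases le_or_gt (4 * (K : ℝ)) g with hg4 | hg4
  · have hgap : ∀ w, w ⊆ S → w ∉ B → ell w ≤ P - g := by
      intro w _ hwB
      have e1 : ell w = P - g := if_neg hwB
      rw [e1]
    have h1 := hQ1 B g hB hBS hgap hg4
    rw [hNN] at h1
    exact (hE2.trans h1).trans (mul_le_mul_of_nonneg_right (hA hg4) hN0)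
  · exact (hE2.trans hQ2).trans (mul_le_mul_of_nonneg_right (hBb hg4) hN0)

end

end Pool.Agent.PLR
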